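import Pool.Agent.KS6_27.CKd
import Pool.Graph.R_pool_sql_team_seeded_47a924f7.T6.H92.CB.Orm
import Pool.Graph.R_pool_sql_team_seeded_47a924f7.T6.H92.CB.Opo

/-!
# A set of density one all of whose infinite subsets compress a fixed real

The negated form of Q1 of MP_fa2eca_lc, with density one in place of positive lower density: there
are `X` and `A` such that `A` has density one and for every infinite `B ⊆ A` one has
`C^B(X ↾ n) + √n < C(X ↾ n)` for all but finitely many `n`.

Idea. `X` is the leftmost path of a co-enumerable tree of very incompressible strings, `y j` its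
approximations (they move to the right only), `T j` the first difference of `y j` and `X`. A number
`m` with `j = ⌊log₂ m⌋` is excluded from `A` if it is congruent to `T j` modulo `q (T j)`, where
`q t ≤ log t` is a power of two that tends to infinity with `t`. Given `n` let `a` be the last
element of `B ⊆ A` such that the first difference `k` of its approximation is below `n`, and `b` the
next element of `B`. The bits of `X` below `k` at the positions that are not congruent to `a` modulo
`q k` suffice to find `b`, and `b` gives `X ↾ n`.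
-/

set_option autoImplicit false

open Filter Topology

namespace Pool.Agent.Results.MP_fa2eca_lc.DensityOne

/-- the first `n` bits of `X` -/
def restr (X : ℕ → Bool) (n : ℕ) : List Bool := (List.range n).map X

/-- `U` is an optimal machine for plain complexity. -/
def OptimalMachine (U : List Bool →. List Bool) : Prop :=
  Partrec U ∧ ∀ M : List Bool →. List Bool, Partrec M → ∃ c : ℕ, ∀ τ y : List Bool,
    y ∈ M τ → ∃ τ' : List Bool, τ'.length ≤ τ.length + c ∧ y ∈ U τ'

/-- An oracle machine (Turing functional from strings to strings): the graph of `V B` is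
enumerated from the finite initial segments of the oracle `B`, by one computably enumerable set
`G` of axioms `(σ, τ, y)` (meaning: with an oracle that extends `σ` the output on the input `τ` is
`y`) for all oracles `B`. -/
def OracleMachine (V : (ℕ → Bool) → List Bool →. List Bool) : Prop :=
  ∃ G : List Bool × List Bool × List Bool → Prop, REPred G ∧
    (∀ σ σ' τ y, σ <+: σ' → G (σ, τ, y) → G (σ', τ, y)) ∧
    ∀ (B : ℕ → Bool) (τ y : List Bool), y ∈ V B τ ↔ ∃ s, G (restr B s, τ, y)

/-- `V` is an optimal oracle machine. -/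
def OptimalOracleMachine (V : (ℕ → Bool) → List Bool →. List Bool) : Prop :=
  OracleMachine V ∧ ∀ M : (ℕ → Bool) → List Bool →. List Bool, OracleMachine M → ∃ c : ℕ,
    ∀ (B : ℕ → Bool) (τ y : List Bool), y ∈ M B τ →
      ∃ τ' : List Bool, τ'.length ≤ τ.length + c ∧ y ∈ V B τ'

/-- the plain complexity of `y` with respect to the machine `U`: the least length of a
description -/
noncomputable def C (U : List Bool →. List Bool) (y : List Bool) : ℕ :=
  sInf {n | ∃ τ : List Bool, τ.length = n ∧ y ∈ U τ}

/-- **Main result.** Optimal machines and optimal oracle machines exist, and there are `X` and `A`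
such that `A` has density one and for every infinite subset `B` of `A`, all optimal machines `U` and
all optimal oracle machines `V`, `C^B(X ↾ n) + √n < C(X ↾ n)` for all but finitely many `n`; in
particular, for every constant `c`, `C^B(X ↾ n) < C(X ↾ n) - c` for all but finitely many `n`. -/
theorem result :
    (∃ U, OptimalMachine U) ∧ (∃ V, OptimalOracleMachine V) ∧
    ∃ X A : ℕ → Bool,
      Tendsto (fun n : ℕ => (((Finset.range n).filter fun m => A m = true).card : ℝ) / n)
        atTop (𝓝 1) ∧
      ∀ U, OptimalMachine U → ∀ V, OptimalOracleMachine V →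
        ∀ B : ℕ → Bool, (∀ n, B n = true → A n = true) → {n | B n = true}.Infinite →
          (∀ᶠ n : ℕ in atTop, C (V B) (restr X n) + Nat.sqrt n < C U (restr X n)) ∧
          ∀ c : ℕ, ∀ᶠ n in atTop, (C (V B) (restr X n) : ℤ) < (C U (restr X n) : ℤ) - c := by
  refine ⟨Pool.Agent.T6.H92.CB.opt.1, Pool.Agent.T6.H92.CB.opo, ?_⟩
  obtain ⟨U₀, hU₀⟩ : ∃ U, OptimalMachine U := Pool.Agent.T6.H92.CB.opt.1
  obtain ⟨X, y, hy, cv, mo, hX⟩ := KS6_27.CK.complex hU₀.1
  -- no approximation is equal to `X`
  have nd : ∀ j, ∃ n, y j n ≠ X n := by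
    intro j
    by_contra hcon
    push Not at hcon
    have h1 : Partrec fun p : List Bool =>
        (Part.some (H.MP_fa2eca_lc.pre (y j) (2 * p.length)) : Part (List Bool)) := by
      have : Primrec fun p : List Bool => H.MP_fa2eca_lc.pre (y j) (2 * p.length) :=
        Primrec.list_map (Primrec.list_range.comp (Primrec.nat_double.comp Primrec.list_length))
          (hy.comp (Primrec.const j) Primrec.snd).to₂
      exact this.to_comp.partrec
    obtain ⟨c, hc⟩ := hU₀.2 _ h1
    obtain ⟨L, hL⟩ := ((KS6_27.CK.sqrt_ge (2 * c + 20)).and (eventually_ge_atTop 1)).exists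
    have hL2 : Nat.sqrt L ≤ L := Nat.sqrt_le_self L
    obtain ⟨p, hp1, hp2⟩ := hc (List.replicate L false) _ (Part.mem_some _)
    rw [List.length_replicate] at hp1 hp2
    have hXy : H.MP_fa2eca_lc.pre (y j) (2 * L) = H.MP_fa2eca_lc.pre X (2 * L) :=
      KS6_27.CK.pre_eq.2 fun s _ => hcon s
    rw [hXy] at hp2
    refine hX (2 * L) p ?_ hp2
    have h3 : Nat.log 2 (2 * L + 1) ≤ Nat.log 2 L + 2 := by
      have : 2 * L + 1 ≤ L * 2 * 2 := by omega
      refine (Nat.log_mono_right this).trans ?_
      rw [Nat.log_mul_base one_lt_two (by omega), Nat.log_mul_base one_lt_two (by omega)]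
    simp only [KS6_27.CK.dd]
    omega
  set T := KS6_27.CK.T nd with hT
  have hTt : Tendsto T atTop atTop := KS6_27.CK.T_tend nd cv
  let A : ℕ → Bool := fun m => decide (m % KS6_27.CK.qq (T (Nat.log 2 m)) ≠
    T (Nat.log 2 m) % KS6_27.CK.qq (T (Nat.log 2 m)))
  refine ⟨X, A, KS6_27.CK.dens hTt fun m => by simp [A], fun U hU V hV B hBA hB => ?_⟩
  have main : ∀ᶠ n : ℕ in atTop, C (V B) (restr X n) + Nat.sqrt n < C U (restr X n) := by
    have hVB := Pool.Agent.T6.H92.CB.orm V hV B
    obtain ⟨c, n₀, hc⟩ := KS6_27.CK.short nd hy cv mo hB (fun m hm => by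
      have := hBA m hm
      simpa [A] using this) (W := V B) (fun f hf => by
        obtain ⟨c, hc⟩ := hVB.2 _ (H.MP_d04dff_lc.search B hf)
        exact ⟨c, fun p s hs => by
          obtain ⟨q, h1, h2⟩ := hc p s hs
          exact ⟨q, h2, h1⟩⟩)
    obtain ⟨e, he⟩ := hU₀.2 U hU.1
    obtain ⟨b, hb⟩ := hU.2 _ Partrec.some
    filter_upwards [KS6_27.CK.final (c + e + 8), eventually_ge_atTop n₀,
      eventually_ge_atTop 1] with n h1 h2 h3
    obtain ⟨k, hk, h4⟩ := hc n h2
    have h5 := h1 k hk
    have e1 : C (V B) (restr X n) = H.MP_d04dff_lc.K (V B) (H.MP_fa2eca_lc.pre X n) := by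
      unfold C H.MP_d04dff_lc.K
      congr 1
      ext m
      exact exists_congr fun τ => and_comm
    rw [e1]
    obtain ⟨p, hp1, hp2⟩ : ∃ p : List Bool, p.length = C U (restr X n) ∧ restr X n ∈ U p :=
      Nat.sInf_mem (s := {m | ∃ τ : List Bool, τ.length = m ∧ restr X n ∈ U τ}) (by
        obtain ⟨q, -, hq⟩ := hb (restr X n) _ (Part.mem_some _)
        exact ⟨_, q, rfl, hq⟩)
    obtain ⟨q, hq1, hq2⟩ := he p _ hp2
    have h6 := mt (fun h => hX n q h hq2) not_false
    have h7 : Nat.log 2 (n + 1) ≤ Nat.log 2 n + 1 := H.MP_d04dff_lc.log_add n h3 1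
    simp only [KS6_27.CK.dd] at h6
    omega
  refine ⟨main, fun c => ?_⟩
  filter_upwards [main, eventually_ge_atTop (c * c)] with n h1 h2
  have : c ≤ Nat.sqrt n := Nat.le_sqrt.2 h2
  omega

end Pool.Agent.Results.MP_fa2eca_lc.DensityOne
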